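import Pool.Agent.H4.HT.Index
import Pool.Agent.H4.HT.Dense

/-!
# Hunt's hypothesis (H) fails for pure jump subordinators of every index

Q1 asks whether every pure jump subordinator with infinite Lévy measure satisfies (H).  The library
(`MP_4b85d8_pr/SubordinatorWithoutH`, whose definitions and method we use) has one subordinator for which (H) fails.
Here:

1. For every `β` in `[0, 1]` there is a pure jump subordinator `X` with infinite Lévy measure of Blumenthal-Getoor index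
`β` for which (H) fails.
2. No condition on the size of the Lévy measure near `0` implies (H): for every function `g` with `g(x) → 0` for
`x → 0` there is a pure jump subordinator for which (H) fails and with `x μ[x, ∞) ≥ g(x)` for arbitrarily small `x`.
(The Lévy measure `μ` of every pure jump subordinator satisfies `x μ[x, ∞) → 0`.)
3. These failures are stable.  In 1 the Lévy measure `μ` can be chosen arbitrarily small, `∫ min(1, x) μ(dx) ≤ ε`, and
in 1 and 2 one closed set `A` is thin and not polar for `X` and for all the subordinators `X + Z`, where `Z` is any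
independent pure jump subordinator with finite Lévy measure `ν` (a compound Poisson process); the Lévy measure of
`X + Z` is `μ + ν`.
4. Failure is dense.  Let `ν` be the Lévy measure of any pure jump subordinator, for example of one which satisfies (H).
For every `β` in `[0, 1]`, `L > 0` and `ε > 0` there is a pure jump subordinator with infinite Lévy measure `μ` of index
`β`, for which (H) fails (with the stability of 3) and the Laplace exponent of which differs from that of `ν` by at most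
`ε` on `[0, L]`.  So every pure jump subordinator is a limit in law of pure jump subordinators with infinite Lévy
measures of index `β` for which (H) fails.
-/

set_option autoImplicit false

namespace Pool.Agent.Results.MP_4b85d8_pr.EveryIndex

open MeasureTheory ProbabilityTheory Set Filter Topology
open scoped NNReal ENNReal
open Pool.Agent.W850.HT Pool.Agent.H4.HT

/-- `X` is a pure jump subordinator with infinite Lévy measure `μ`, and some closed set `A` is thin but not polar for `X`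
and for the sum of `X` and any independent subordinator `Z` with finite Lévy measure `ν`, which is a pure jump
subordinator with Lévy measure `μ + ν`. -/
def Fails {Ω : Type} [MeasurableSpace Ω] (P : Measure Ω) (X : ℝ≥0 → Ω → ℝ) (μ : Measure ℝ) : Prop :=
  IsPureJumpSubordinator P X μ ∧ μ (Ioi 0) = ∞ ∧ ∃ A : Set ℝ, IsClosed A ∧ Thin P X A ∧ ¬ Polar P X A ∧
    ∀ (Ω' : Type) [MeasurableSpace Ω'] (P' : Measure Ω') [IsProbabilityMeasure P'] (Z : ℝ≥0 → Ω' → ℝ) (ν : Measure ℝ),
      IsPureJumpSubordinator P' Z ν → ν univ < ∞ →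
      IsPureJumpSubordinator (P.prod P') (fun t (w : Ω × Ω') => X t w.1 + Z t w.2) (μ + ν) ∧
      Thin (P.prod P') (fun t (w : Ω × Ω') => X t w.1 + Z t w.2) A ∧
      ¬ Polar (P.prod P') (fun t (w : Ω × Ω') => X t w.1 + Z t w.2) A ∧
      ¬ HypothesisH (P.prod P') (fun t (w : Ω × Ω') => X t w.1 + Z t w.2)

theorem not_H_of {Ω : Type} [MeasurableSpace Ω] {P : Measure Ω} {X : ℝ≥0 → Ω → ℝ} {A : Set ℝ} (h : Thin P X A)
    (h' : ¬ Polar P X A) : ¬ HypothesisH P X := fun H =>
  h' (H _ ⟨fun _ => A, fun _ => h, fun _ hx => mem_iUnion.2 ⟨0, hx⟩⟩)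

theorem Fails.add {Ω : Type} [MeasurableSpace Ω] {P : Measure Ω} [IsProbabilityMeasure P] {X : ℝ≥0 → Ω → ℝ}
    {μ : Measure ℝ} (h : Fails P X μ) {Ω' : Type} [MeasurableSpace Ω'] {P' : Measure Ω'} [IsProbabilityMeasure P']
    {Z : ℝ≥0 → Ω' → ℝ} {ν : Measure ℝ} (hZ : IsPureJumpSubordinator P' Z ν) (hν : ν univ < ∞) :
    Fails (P.prod P') (fun t (w : Ω × Ω') => X t w.1 + Z t w.2) (μ + ν) := by
  obtain ⟨h1, h2, A, hA, h3, h4, h5⟩ := h
  obtain ⟨g1, g2, g3, g4⟩ := h5 Ω' P' Z ν hZ hν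
  refine ⟨g1, ?_, A, hA, g2, g3, ?_⟩
  · rw [Measure.add_apply, h2, top_add]
  · intro Ω'' _ P'' _ Z' ν' hZ' hν'
    have k1 := thin_add g2 hZ' hν'
    have k2 := not_polar_add g3 hZ' hν'
    exact ⟨sub_add g1 hZ', k1, k2, not_H_of k1 k2⟩

theorem Fails.not_H {Ω : Type} [MeasurableSpace Ω] {P : Measure Ω} {X : ℝ≥0 → Ω → ℝ} {μ : Measure ℝ}
    (h : Fails P X μ) : ¬ HypothesisH P X := by
  obtain ⟨_, _, A, _, h3, h4, _⟩ := h
  exact not_H_of h3 h4

theorem fails (b : ℕ → ℕ → ℕ) : Fails (PP (par b).r) (par b).X (mu b) :=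
  ⟨isSub b, mu_infinite b, (dat b).clk.A, (dat b).clk.isClosed_A, thin_A b, not_polar_A b,
    fun _ _ _ _ _ _ hZ hν => ⟨sub_add (isSub b) hZ, thin_add (thin_A b) hZ hν, not_polar_add (not_polar_A b) hZ hν,
      not_H_of (thin_add (thin_A b) hZ hν) (not_polar_add (not_polar_A b) hZ hν)⟩⟩

/-- **Hunt's hypothesis (H) fails for pure jump subordinators of every index**, arbitrarily small ones and arbitrarily
large ones, and the failure is stable under the addition of independent compound Poisson processes. -/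
theorem result :
    (∀ β : ℝ, 0 ≤ β → β ≤ 1 → ∀ ε : ℝ, 0 < ε →
      ∃ (Ω : Type) (_ : MeasurableSpace Ω) (P : Measure Ω) (X : ℝ≥0 → Ω → ℝ) (μ : Measure ℝ), IsProbabilityMeasure P ∧
        Fails P X μ ∧ ¬ HypothesisH P X ∧ HasIndex μ β ∧ ∫⁻ x, ENNReal.ofReal (min 1 x) ∂μ ≤ ENNReal.ofReal ε) ∧
    (∀ g : ℝ → ℝ, Tendsto g (𝓝[>] 0) (𝓝 0) →
      ∃ (Ω : Type) (_ : MeasurableSpace Ω) (P : Measure Ω) (X : ℝ≥0 → Ω → ℝ) (μ : Measure ℝ), IsProbabilityMeasure P ∧
        Fails P X μ ∧ ¬ HypothesisH P X ∧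
        ∃ᶠ x in 𝓝[>] (0 : ℝ), ENNReal.ofReal (g x) ≤ ENNReal.ofReal x * μ (Ici x)) ∧
    (∀ ν : Measure ℝ, ν (Iic 0) = 0 → ∫⁻ x, ENNReal.ofReal (min 1 x) ∂ν < ∞ →
      ∀ β : ℝ, 0 ≤ β → β ≤ 1 → ∀ L ε : ℝ, 0 ≤ L → 0 < ε →
      ∃ (Ω : Type) (_ : MeasurableSpace Ω) (P : Measure Ω) (X : ℝ≥0 → Ω → ℝ) (μ : Measure ℝ), IsProbabilityMeasure P ∧
        Fails P X μ ∧ ¬ HypothesisH P X ∧ HasIndex μ β ∧
        ∀ l : ℝ, 0 ≤ l → l ≤ L → |Phi μ l - Phi ν l| ≤ ε) := by
  have key : ∀ β : ℝ, 0 ≤ β → β ≤ 1 → ∀ ε : ℝ, 0 < ε →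
      ∃ (Ω : Type) (_ : MeasurableSpace Ω) (P : Measure Ω) (X : ℝ≥0 → Ω → ℝ) (μ : Measure ℝ), IsProbabilityMeasure P ∧
        Fails P X μ ∧ ¬ HypothesisH P X ∧ HasIndex μ β ∧ ∫⁻ x, ENNReal.ofReal (min 1 x) ∂μ ≤ ENNReal.ofReal ε := by
    intro β h0 h1 ε hε
    obtain ⟨K, hK⟩ := exists_pow_lt_of_lt_one hε (by norm_num : (1 : ℝ) / 2 < 1)
    refine ⟨Om, inferInstance, PP (par (bi β K)).r, (par (bi β K)).X, mu (bi β K), inferInstance, fails _, not_H _,
      hasIndex h0 h1 K, (lint_total (bi β K)).trans (ENNReal.ofReal_le_ofReal ?_)⟩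
    have : bi β K 0 0 = K := by simp [bi]
    rw [this]
    exact hK.le
  refine ⟨key, fun g hg => ?_, fun ν hν0 hν1 β h0 h1 L ε hL hε => ?_⟩
  · obtain ⟨b, hb⟩ := exists_large hg
    exact ⟨Om, inferInstance, PP (par b).r, (par b).X, mu b, inferInstance, fails _, not_H _, hb⟩
  · have hM : (0 : ℝ) < max 1 L := one_pos.trans_le (le_max_left _ _)
    obtain ⟨N, hN⟩ := approx hν0 hν1 hL (half_pos hε)
    obtain ⟨Ω', mΩ', P', Z, hP', hZ⟩ := exists_Z ν N
    obtain ⟨Ω, mΩ, P, X, μ, hP, hF, _, hI, hs⟩ := key β h0 h1 (ε / 2 / max 1 L) (by positivity)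
    have hfin := nu0_fin ν N
    exact ⟨Ω × Ω', inferInstance, P.prod P', fun t w => X t w.1 + Z t w.2, μ + nu0 ν N, inferInstance, hF.add hZ hfin,
      (hF.add hZ hfin).not_H, hI.add h0 hfin hZ.supp, fun l hl hlL => Phi_add hF.1.supp hF.1.int_lt hZ.supp hZ.int_lt
        hl hlL hε.le hs (hN l hl hlL)⟩

end Pool.Agent.Results.MP_4b85d8_pr.EveryIndex
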